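import Pool.Agent.MP_d9582c_gt.H34.Cone
import Pool.Agent.MP_d9582c_gt.H27.Eucl

/-!
The contraction of the columns of the Čech-de Rham double complex.
-/

open scoped Manifold ContDiff Topology ENNReal
open MeasureTheory Set Filter

noncomputable section

namespace Pool.Agent.MP_d9582c_gt.H88

open H34 H34.Geo

universe u v

variable {n p q : ℕ}

/-- Sets that carry cone operators. -/
def Gd (P : Set (E n)) : Prop := IsOpen P ∧ Convex ℝ P ∧ Bornology.IsBounded P ∧ P.Nonempty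

/-- A local linear operator on smooth forms on `P`. -/
structure Lin (T : (E n → Alt n p) → E n → Alt n q) (P : Set (E n)) : Prop where
  congr : ∀ η ξ, EqOn η ξ P → EqOn (T η) (T ξ) P
  add : ∀ η ξ, ContDiffOn ℝ ∞ η P → ContDiffOn ℝ ∞ ξ P → EqOn (T (η + ξ)) (T η + T ξ) P
  smul : ∀ (c : ℂ) η, EqOn (T (c • η)) (c • T η) P
  smooth : ∀ η, ContDiffOn ℝ ∞ η P → ContDiffOn ℝ ∞ (T η) P

lemma exists_ops (n : ℕ) :
    ∃ (K : ℝ → (p : ℕ) → Set (E n) → (E n → Alt n (p + 1)) → E n → Alt n p)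
      (S : ℝ → (p : ℕ) → Set (E n) → (E n → Alt n p) → E n → Alt n p) (C : Set (E n) → ℝ),
      ∀ P, Gd P → ∃ o : ConeOps n P, (∀ δ p, K δ p P = o.K δ p) ∧ (∀ δ p, S δ p P = o.S δ p) ∧
        C P = o.C := by
  classical
  refine ⟨fun δ p P => if h : Nonempty (ConeOps n P) then h.some.K δ p else 0,
    fun δ p P => if h : Nonempty (ConeOps n P) then h.some.S δ p else 0,
    fun P => if h : Nonempty (ConeOps n P) then h.some.C else 0, fun P hP => ?_⟩
  have h := H27.eucl n P hP.1 hP.2.1 hP.2.2.1 hP.2.2.2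
  exact ⟨h.some, fun _ _ => dif_pos h, fun _ _ => dif_pos h, dif_pos h⟩

variable {M : Type u} [TopologicalSpace M] [ChartedSpace (E n) M]
  {G : Type v} [Group G] [MulAction G M] [IsManifold 𝓘(ℝ, E n) ∞ M] [MeasurableSpace M]
  (X : Geo n G M)

/-- The chart of the `a`-th set. -/
abbrev ch (a : Fin X.m) := chartAt (E n) (X.ctr a)

/-- A component of an intersection. -/
def piece (s : Finset (Fin X.m)) (a : Fin X.m) (h : Fin X.m → G) : Set M :=
  {y | y ∈ X.U a ∧ ∀ b ∈ s, (h b)⁻¹ • y ∈ X.U b}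

/-- The same in the chart. -/
def pc (s : Finset (Fin X.m)) (a : Fin X.m) (h : Fin X.m → G) : Set (E n) :=
  ch X a '' piece X s a h

/-- Relative indices. -/
def rel (a : Fin X.m) (x : M) : Fin X.m → G := fun b => (X.idx a x)⁻¹ * X.idx b x

/-- From the manifold to the chart. -/
def down (a : Fin X.m) (g : G) (η : M → Alt n p) : E n → Alt n p :=
  pull (ch X a).symm (tr g⁻¹ η)

/-- From the chart to the manifold. -/
def up (a : Fin X.m) (g : G) (θ : E n → Alt n p) : M → Alt n p := tr g (pull (ch X a) θ)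

variable {X} {s : Finset (Fin X.m)} {a : Fin X.m} {h : Fin X.m → G} {g : G} {x y : M}

lemma src (hy : y ∈ X.U a) : y ∈ (ch X a).source := X.Cl_sub a (X.U_sub a hy)

lemma isOpen_piece : IsOpen (piece X s a h) := by
  have : piece X s a h = X.U a ∩ ⋂ b ∈ s, {y | (h b)⁻¹ • y ∈ X.U b} := by ext; simp [piece]
  rw [this]
  exact (X.isOpen_U a).inter (isOpen_biInter_finset fun b _ => isOpen_tr _ b)

lemma piece_sub : piece X s a h ⊆ X.U a := fun _ hy => hy.1

lemma gd_pc (ha : a ∈ s) (hy : y ∈ piece X s a h) : Gd (pc X s a h) := by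
  refine ⟨(ch X a).isOpen_image_of_subset_source isOpen_piece fun _ hz => src hz.1, ?_, ?_,
    ⟨_, y, hy, rfl⟩⟩
  · have : pc X s a h = ⋂ b ∈ s, ch X a '' (X.U a ∩ {x | (h b)⁻¹ • x ∈ X.U b}) := by
      ext z
      simp only [mem_iInter]
      refine ⟨fun ⟨w, hw, e⟩ b hb => ⟨w, ⟨hw.1, hw.2 b hb⟩, e⟩, fun hz => ?_⟩
      obtain ⟨w, hw, e⟩ := hz a ha
      refine ⟨w, ⟨hw.1, fun b hb => ?_⟩, e⟩
      obtain ⟨w', hw', e'⟩ := hz b hb
      rw [(ch X a).injOn (src hw.1) (src hw'.1) (e.trans e'.symm)]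
      exact hw'.2
    rw [this]
    exact convex_iInter₂ fun b _ => X.conv a b (h b)
  · exact ((X.isCompact_Cl a).image_of_continuousOn
      ((ch X a).continuousOn.mono (X.Cl_sub a))).isBounded.subset
      (image_mono fun _ hz => X.U_sub a hz.1)

lemma smul_mem_Vs_of_piece (hy : y ∈ piece X s a h) (g : G) : g • y ∈ X.Vs s :=
  smul_mem_Vs.2 fun b hb => ⟨h b, hy.2 b hb⟩

lemma mem_piece (ha : a ∈ s) (hx : x ∈ X.Vs s) :
    (X.idx a x)⁻¹ • x ∈ piece X s a (rel X a x) :=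
  ⟨idx_spec (hx a ha), fun b hb => by simpa [rel, mul_smul] using idx_spec (hx b hb)⟩

lemma pc_congr {h' : Fin X.m → G} (e : ∀ b ∈ s, h b = h' b) : pc X s a h = pc X s a h' := by
  unfold pc piece
  exact congrArg _ (Set.ext fun y => and_congr_right fun _ => forall₂_congr fun b hb => by
    rw [e b hb])

lemma idx_one (hy : y ∈ X.U a) : X.idx a y = 1 := idx_eq (by simpa using hy)

lemma pc_rel (hy : y ∈ piece X s a h) : pc X s a (rel X a y) = pc X s a h :=
  pc_congr fun b hb => by rw [rel, idx_one hy.1, idx_eq (hy.2 b hb), inv_one, one_mul]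

lemma exists_piece (hy : y ∈ X.U a) (hs : y ∈ X.Vs s) :
    ∃ h ∈ Fintype.piFinset fun _ : Fin X.m => X.S, y ∈ piece X s a h := by
  classical
  refine ⟨fun b => if b ∈ s then X.idx b y else 1, Fintype.mem_piFinset.2 fun b => ?_,
    hy, fun b hb => ?_⟩
  · split_ifs with hb
    · exact X.adj a b _ y hy (idx_spec (hs b hb))
    · exact X.one_mem
  · simpa [hb] using idx_spec (hs b hb)

section updown

variable {η ξ : M → Alt n p} {θ θ' : E n → Alt n p} {z : E n}

variable (X) in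
include X in
lemma smoothAt_tr_inv (hη : SmoothAt η (g • y)) : SmoothAt (tr g⁻¹ η) y :=
  X.smoothAt_tr g⁻¹ (by rwa [inv_inv])

lemma down_smooth (hη : ∀ x ∈ X.Vs s, SmoothAt η x) :
    ContDiffOn ℝ ∞ (down X a g η) (pc X s a h) := by
  rintro _ ⟨y, hy, rfl⟩
  refine (SmoothAt.contDiffAt_pull (contMDiffAt_chart_symm ((ch X a).map_source (src hy.1)))
    ?_).contDiffWithinAt
  rw [(ch X a).left_inv (src hy.1)]
  exact smoothAt_tr_inv X (hη _ (smul_mem_Vs_of_piece hy g))

lemma down_congr (e : ∀ x ∈ X.Vs s, η x = ξ x) :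
    EqOn (down X a g η) (down X a g ξ) (pc X s a h) := by
  rintro _ ⟨y, hy, rfl⟩
  have : tr g⁻¹ η y = tr g⁻¹ ξ y :=
    tr_apply_congr _ (by rw [inv_inv]; exact e _ (smul_mem_Vs_of_piece hy g))
  simp only [down, pull, (ch X a).left_inv (src hy.1), this]

lemma down_extD (hη : ∀ x ∈ X.Vs s, SmoothAt η x) :
    EqOn (down X a g (extD η)) (extDeriv (down X a g η)) (pc X s a h) := by
  rintro _ ⟨y, hy, rfl⟩
  have h1 := hη _ (smul_mem_Vs_of_piece hy g)
  rw [down, down, SmoothAt.extDeriv_pull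
    (contMDiffAt_chart_symm ((ch X a).map_source (src hy.1)))
    (by rw [(ch X a).left_inv (src hy.1)]; exact smoothAt_tr_inv X h1)]
  simp only [pull, (ch X a).left_inv (src hy.1)]
  rw [X.extD_tr g⁻¹ (by rwa [inv_inv])]

lemma down_tr (γ : G) : down X a (γ * g) (tr γ η) = down X a g η := by
  rw [down, down, ← X.tr_mul, mul_inv_rev, inv_mul_cancel_right]

lemma up_smooth (hy : g⁻¹ • x ∈ X.U a) (hθ : ContDiffAt ℝ ∞ θ (ch X a (g⁻¹ • x))) :
    SmoothAt (up X a g θ) x :=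
  X.smoothAt_tr g (SmoothAt.pull (contMDiffAt_chart (src hy)) (smoothAt_model.2 hθ))

lemma up_congr (e : θ (ch X a (g⁻¹ • x)) = θ' (ch X a (g⁻¹ • x))) :
    up X a g θ x = up X a g θ' x := tr_apply_congr _ (by simp only [pull, e])

lemma up_extD (hy : g⁻¹ • x ∈ X.U a) (hθ : ContDiffAt ℝ ∞ θ (ch X a (g⁻¹ • x))) :
    extD (up X a g θ) x = up X a g (extDeriv θ) x := by
  have h1 := smoothAt_model.2 hθ
  rw [up, X.extD_tr g (SmoothAt.pull (contMDiffAt_chart (src hy)) h1)]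
  refine tr_apply_congr _ ?_
  rw [SmoothAt.extD_pull (contMDiffAt_chart (src hy)) h1]
  simp only [pull, extD_model]

lemma pull_down (hy : y ∈ X.U a) (η : M → Alt n p) :
    pull (ch X a) (pull (ch X a).symm η) y = η y := by
  ext v
  simp only [pull, ContinuousAlternatingMap.compContinuousLinearMap_apply,
    (ch X a).left_inv (src hy), Function.comp_def, tang_chart_symm_comp (src hy)]

lemma up_down (hy : g⁻¹ • x ∈ X.U a) : up X a g (down X a g η) x = η x := by
  rw [up, down, tr_apply_congr g (pull_down hy _), ← X.tr_mul, mul_inv_cancel, tr_one]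

lemma up_tr (γ : G) : up X a (γ * g) θ = tr γ (up X a g θ) := X.tr_mul _ _ _

lemma up_apply_zero (θ : E n → Alt n 0) : up X a g θ x ![] = θ (ch X a (g⁻¹ • x)) ![] := by
  simp only [up, tr, pull, ContinuousAlternatingMap.compContinuousLinearMap_apply]
  exact congrArg _ (Subsingleton.elim _ _)

end updown

lemma fun_smul_zero {ι : Type*} (c : ℂ) : c • (0 : ι → Alt n p) = 0 :=
  funext fun _ => alt_smul_zero c

variable (X) in
open Classical in
/-- A family of operators in charts acting on forms on an intersection. -/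
def raw (T : Set (E n) → (E n → Alt n p) → E n → Alt n q) (s : Finset (Fin X.m))
    (η : M → Alt n p) (x : M) : Alt n q :=
  if h : s.Nonempty ∧ x ∈ X.Vs s then
    up X (s.min' h.1) (X.idx (s.min' h.1) x) (T (pc X s (s.min' h.1) (rel X (s.min' h.1) x))
      (down X (s.min' h.1) (X.idx (s.min' h.1) x) η)) x
  else 0

section raw

variable {T : Set (E n) → (E n → Alt n p) → E n → Alt n q} {η ξ : M → Alt n p}

lemma raw_eq (hs : s.Nonempty) (hx : x ∈ X.Vs s) : raw X T s η x =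
    up X (s.min' hs) (X.idx (s.min' hs) x) (T (pc X s (s.min' hs) (rel X (s.min' hs) x))
      (down X (s.min' hs) (X.idx (s.min' hs) x) η)) x := dif_pos ⟨hs, hx⟩

lemma raw_of_notMem (hx : x ∉ X.Vs s) : raw X T s η x = 0 := dif_neg fun h => hx h.2

lemma raw_empty : raw X T ∅ η = 0 := funext fun _ => dif_neg fun h => Finset.not_nonempty_empty h.1

lemma raw_eventually (hs : s.Nonempty) (hx : x ∈ X.Vs s) : raw X T s η =ᶠ[𝓝 x]
    up X (s.min' hs) (X.idx (s.min' hs) x) (T (pc X s (s.min' hs) (rel X (s.min' hs) x))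
      (down X (s.min' hs) (X.idx (s.min' hs) x) η)) := by
  filter_upwards [(eventually_all_finset s).2 fun b hb => idx_eventually (hx b hb)] with y hy
  have e := (hy _ (s.min'_mem hs)).2
  rw [raw_eq hs fun b hb => (hy b hb).1, e,
    pc_congr (h' := rel X (s.min' hs) x) fun b hb => by rw [rel, rel, e, (hy b hb).2]]

lemma mem_pc (hs : s.Nonempty) (hx : x ∈ X.Vs s) :
    ch X (s.min' hs) ((X.idx (s.min' hs) x)⁻¹ • x) ∈ pc X s (s.min' hs) (rel X (s.min' hs) x) :=
  mem_image_of_mem _ (mem_piece (s.min'_mem hs) hx)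

lemma gd_rel (hs : s.Nonempty) (hx : x ∈ X.Vs s) : Gd (pc X s (s.min' hs) (rel X (s.min' hs) x)) :=
  gd_pc (s.min'_mem hs) (mem_piece (s.min'_mem hs) hx)

lemma raw_piece (hs : s.Nonempty) (hy : y ∈ piece X s (s.min' hs) h) : raw X T s η y =
    pull (ch X (s.min' hs)) (T (pc X s (s.min' hs) h) (down X (s.min' hs) 1 η)) y := by
  rw [raw_eq hs (by simpa using smul_mem_Vs_of_piece hy 1), pc_rel hy, idx_one hy.1, up, tr_one]

lemma raw_tr (γ : G) : raw X T s (tr γ η) x = tr γ (raw X T s η) x := by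
  by_cases hx : x ∈ X.Vs s
  swap
  · rw [raw_of_notMem hx, tr_apply_eq_zero γ (raw_of_notMem (mt smul_mem_Vs.1 hx))]
  rcases s.eq_empty_or_nonempty with rfl | hs
  · rw [raw_empty, raw_empty]; rfl
  have hx' : γ⁻¹ • x ∈ X.Vs s := smul_mem_Vs.2 hx
  have e : ∀ b ∈ s, X.idx b x = γ * X.idx b (γ⁻¹ • x) := fun b hb => by
    rw [idx_smul (hx b hb), mul_inv_cancel_left]
  rw [raw_eq hs hx, tr_apply_congr γ (raw_eq hs hx'), e _ (s.min'_mem hs), down_tr, up_tr,
    pc_congr (h' := rel X (s.min' hs) (γ⁻¹ • x)) fun b hb => by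
      rw [rel, rel, e _ (s.min'_mem hs), e b hb]; group]

variable (hT : ∀ P, Gd P → Lin (T P) P)
include hT

lemma smooth_at_pc (hs : s.Nonempty) (hx : x ∈ X.Vs s) (hη : ∀ x ∈ X.Vs s, SmoothAt η x) :
    ContDiffAt ℝ ∞ (T (pc X s (s.min' hs) (rel X (s.min' hs) x))
      (down X (s.min' hs) (X.idx (s.min' hs) x) η))
      (ch X (s.min' hs) ((X.idx (s.min' hs) x)⁻¹ • x)) :=
  ((hT _ (gd_rel hs hx)).smooth _ (down_smooth hη)).contDiffAt
    ((gd_rel hs hx).1.mem_nhds (mem_pc hs hx))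

lemma raw_smooth (hx : x ∈ X.Vs s) (hη : ∀ x ∈ X.Vs s, SmoothAt η x) :
    SmoothAt (raw X T s η) x := by
  rcases s.eq_empty_or_nonempty with rfl | hs
  · rw [raw_empty]; exact smoothAt_zero x
  · exact (up_smooth (idx_spec (hx _ (s.min'_mem hs))) (smooth_at_pc hT hs hx hη)).congr
      (raw_eventually hs hx)

lemma raw_add (hx : x ∈ X.Vs s) (hη : ∀ x ∈ X.Vs s, SmoothAt η x)
    (hξ : ∀ x ∈ X.Vs s, SmoothAt ξ x) :
    raw X T s (η + ξ) x = raw X T s η x + raw X T s ξ x := by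
  rcases s.eq_empty_or_nonempty with rfl | hs
  · simp [raw_empty]
  · rw [raw_eq hs hx, raw_eq hs hx, raw_eq hs hx]
    exact up_congr ((hT _ (gd_rel hs hx)).add _ _ (down_smooth hη) (down_smooth hξ) (mem_pc hs hx))

lemma raw_smul (hx : x ∈ X.Vs s) (c : ℂ) : raw X T s (c • η) x = c • raw X T s η x := by
  rcases s.eq_empty_or_nonempty with rfl | hs
  · simp [raw_empty]
  · rw [raw_eq hs hx, raw_eq hs hx]
    exact up_congr ((hT _ (gd_rel hs hx)).smul c (down X _ _ η) (mem_pc hs hx))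

lemma raw_zero : raw X T s 0 = 0 := funext fun x => by
  by_cases hx : x ∈ X.Vs s
  · have := raw_smul hT (η := 0) hx 0
    rwa [fun_smul_zero, alt_zero_smul] at this
  · exact raw_of_notMem hx

end raw

variable (X) in
/-- The operator on families given by operators in charts. -/
def liftE (d : ℕ → ℕ) (c : Finset (Fin X.m) → ℂ)
    (T : (p : ℕ) → Set (E n) → (E n → Alt n (d p)) → E n → Alt n p)
    (hT : ∀ p P, Gd P → Lin (T p P) P) : Module.End ℂ X.Sec where
  toFun σ := Sec.mk (fun s p => c s • raw X (T p) s (σ.v s (d p))) fun s p x =>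
    ⟨fun hx => (raw_smooth (hT p) hx fun _ hy => σ.smooth _ hy).smul _, fun hx => by
      rw [Pi.smul_apply, raw_of_notMem hx, alt_smul_zero]⟩
  map_add' σ τ := Sec.ext fun s p x hx => by
    change c s • raw X (T p) s (σ.v s (d p) + τ.v s (d p)) x = _
    rw [raw_add (hT p) hx (fun _ hy => σ.smooth _ hy) fun _ hy => τ.smooth _ hy, smul_add]
    rfl
  map_smul' k σ := Sec.ext fun s p x hx => by
    change c s • raw X (T p) s (k • σ.v s (d p)) x = _
    rw [raw_smul (hT p) hx, smul_comm]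
    rfl

section liftE

variable {d : ℕ → ℕ} {c : Finset (Fin X.m) → ℂ}
  {T : (p : ℕ) → Set (E n) → (E n → Alt n (d p)) → E n → Alt n p}
  {hT : ∀ p P, Gd P → Lin (T p P) P}

lemma liftE_v (σ : X.Sec) (s p) :
    (liftE X d c T hT σ).v s p = c s • raw X (T p) s (σ.v s (d p)) := rfl

lemma liftE_empty (σ : X.Sec) (p) : (liftE X d c T hT σ).v ∅ p = 0 := by
  rw [liftE_v, raw_empty, fun_smul_zero]

lemma e0_liftE : X.e0 * liftE X d c T hT = 0 := LinearMap.ext fun σ => Sec.ext fun s p x _ => by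
  rw [Module.End.mul_apply, e0_apply]
  split_ifs with h
  · rw [h, liftE_empty]; rfl
  · rfl

lemma eqv_liftE : Eqv (liftE X d c T hT) := fun γ σ => Sec.ext fun s p x _ => by
  rw [trS_apply, liftE_v, liftE_v, trS_apply, tr_smul, Pi.smul_apply, Pi.smul_apply, raw_tr]

end liftE

section bounds

variable [BorelSpace M] {η : M → Alt n p} {θ : E n → Alt n p}

lemma aem {P : Set (E n)} (hP : IsOpen P) (hθ : ContDiffOn ℝ ∞ θ P) :
    AEMeasurable (fun z => ‖θ z‖ₑ ^ 2) (volume.restrict P) :=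
  ((ENNReal.continuous_pow 2).comp_continuousOn hθ.continuousOn.enorm).aemeasurable
    hP.measurableSet

lemma ofReal_mul_sq (c : ℝ) (α : Alt n p) :
    ENNReal.ofReal (c * ‖α‖ ^ 2) = ENNReal.ofReal c * ‖α‖ₑ ^ 2 := by
  rw [ENNReal.ofReal_mul' (sq_nonneg _), ENNReal.ofReal_pow (norm_nonneg _), ofReal_norm]

omit [BorelSpace M] in
lemma nsq_pull_le (hy : y ∈ X.U a) : ENNReal.ofReal (nsq X.g y (pull (ch X a) θ y)) ≤
    ENNReal.ofReal X.cN * ‖θ (ch X a y)‖ₑ ^ 2 := by
  rw [← ofReal_mul_sq]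
  exact ENNReal.ofReal_le_ofReal (X.nsq_cmp p a y (X.U_sub a hy) _).1

lemma lint_up (hP : IsOpen (pc X s a h)) (hθ : ContDiffOn ℝ ∞ θ (pc X s a h)) :
    ∫⁻ y in piece X s a h, ENNReal.ofReal (nsq X.g y (pull (ch X a) θ y)) ∂X.μ ≤
      ENNReal.ofReal X.cN * (ENNReal.ofReal X.cμ * ∫⁻ z in pc X s a h, ‖θ z‖ₑ ^ 2) := by
  refine (setLIntegral_mono' isOpen_piece.measurableSet fun y hy => nsq_pull_le hy.1).trans ?_
  rw [lintegral_const_mul' _ _ ENNReal.ofReal_ne_top]
  exact mul_le_mul_right (X.vol_cmp a _ isOpen_piece.measurableSet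
    (fun _ hy => X.U_sub a hy.1) _ (aem hP hθ)).1 _

lemma lint_down (hP : IsOpen (pc X s a h)) (hη : ∀ x ∈ X.Vs s, SmoothAt η x) :
    ∫⁻ z in pc X s a h, ‖down X a 1 η z‖ₑ ^ 2 ≤ ENNReal.ofReal X.cμ *
      (ENNReal.ofReal X.cN * ∫⁻ y in X.U a, ENNReal.ofReal (nsq X.g y (η y)) ∂X.μ) := by
  refine (X.vol_cmp a _ isOpen_piece.measurableSet
    (fun _ hy => X.U_sub a hy.1) _ (aem hP (down_smooth hη))).2.trans (mul_le_mul_right ?_ _)
  rw [← lintegral_const_mul' _ _ ENNReal.ofReal_ne_top]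
  refine le_trans (setLIntegral_mono' isOpen_piece.measurableSet fun y hy => ?_)
    (lintegral_mono_set piece_sub)
  have h1 := (X.nsq_cmp p a y (X.U_sub a hy.1) (down X a 1 η (ch X a y))).2
  have h2 : (down X a 1 η (ch X a y)).compContinuousLinearMap (tang n (ch X a) y) = η y := by
    have := pull_down hy.1 η
    rwa [down, inv_one, tr_one]
  rw [h2] at h1
  rw [← ENNReal.ofReal_mul' (nsq_nonneg _ _ _), ← one_mul (_ ^ 2), ← ENNReal.ofReal_one,
    ← ofReal_mul_sq, one_mul]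
  exact ENNReal.ofReal_le_ofReal h1

lemma lint_cover {f : M → ℝ≥0∞} (hf : ∀ y ∉ X.Vs s, f y = 0) :
    ∫⁻ y in X.U a, f y ∂X.μ ≤
      ∑ h ∈ Fintype.piFinset fun _ : Fin X.m => X.S, ∫⁻ y in piece X s a h, f y ∂X.μ := by
  have h1 : X.U a ⊆ (X.Vs s)ᶜ ∪
      ⋃ h : (Fintype.piFinset fun _ : Fin X.m => X.S), piece X s a h := fun y hy => by
    by_cases hs : y ∈ X.Vs s
    · obtain ⟨h, hh, hy'⟩ := exists_piece hy hs
      exact Or.inr (mem_iUnion.2 ⟨⟨h, hh⟩, hy'⟩)
    · exact Or.inl hs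
  refine (lintegral_mono_set h1).trans ((lintegral_union_le _ _ _).trans ?_)
  rw [setLIntegral_eq_zero (isOpen_Vs s).measurableSet.compl fun y hy => hf y hy, zero_add]
  refine (lintegral_iUnion_le _ _).trans (le_of_eq ?_)
  rw [tsum_fintype]
  exact Finset.sum_coe_sort _ fun h => ∫⁻ y in piece X s a h, f y ∂X.μ

end bounds

lemma sign_sq (k : ℕ) (α : Alt n p) : (-1 : ℂ) ^ k • (-1 : ℂ) ^ k • α = α := by
  rw [smul_smul, ← mul_pow]; simp

theorem cone : ConeStmt.{u, v} := by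
  intro n M _ _ G _ _ _ _ _ _ X
  obtain ⟨K, S, C, hO⟩ := exists_ops n
  set A := ENNReal.ofReal X.cN with hA
  set B := ENNReal.ofReal X.cμ with hB
  set Ct : ℝ≥0∞ := ∑ s, ∑ a, ∑ h ∈ Fintype.piFinset fun _ : Fin X.m => X.S,
    ENNReal.ofReal (C (pc X s a h)) with hCt
  have hCt1 : ∀ s a, ∑ h ∈ Fintype.piFinset fun _ : Fin X.m => X.S,
      ENNReal.ofReal (C (pc X s a h)) ≤ Ct := fun s a =>
    (Finset.single_le_sum (f := fun a => ∑ h ∈ Fintype.piFinset fun _ : Fin X.m => X.S,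
      ENNReal.ofReal (C (pc X s a h))) (fun _ _ => zero_le) (Finset.mem_univ a)).trans
      (Finset.single_le_sum (f := fun s => ∑ a, ∑ h ∈ Fintype.piFinset fun _ : Fin X.m => X.S,
        ENNReal.ofReal (C (pc X s a h))) (fun _ _ => zero_le) (Finset.mem_univ s))
  set Cf : ℝ≥0∞ := (A * B * B * A + A * B * A) * Ct with hCf
  have hfin : Cf ≠ ⊤ := by
    have : Ct ≠ ⊤ := by simp [hCt, ENNReal.sum_eq_top]
    have : A ≠ ⊤ := ENNReal.ofReal_ne_top
    have : B ≠ ⊤ := ENNReal.ofReal_ne_top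
    finiteness
  have hK : ∀ δ ∈ Ioc (0 : ℝ) 1, ∀ p P, Gd P → Lin (K δ p P) P := fun δ hδ p P hP => by
    obtain ⟨o, h1, -, -⟩ := hO P hP
    rw [h1]
    exact ⟨o.K_congr δ p, o.K_add δ hδ p, o.K_smul δ p, o.K_smooth δ hδ p⟩
  have hS : ∀ δ ∈ Ioc (0 : ℝ) 1, ∀ p P, Gd P → Lin (S δ p P) P := fun δ hδ p P hP => by
    obtain ⟨o, -, h1, -⟩ := hO P hP
    rw [h1]
    exact ⟨o.S_congr δ p, o.S_add δ hδ p, o.S_smul δ p, o.S_smooth δ hδ p⟩
  classical
  refine ⟨Cf.toReal, fun δ => if hδ : δ ∈ Ioc (0 : ℝ) 1 then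
      liftE X (· + 1) (fun s => (-1) ^ s.card) (K δ) (hK δ hδ) else 0,
    fun δ => if hδ : δ ∈ Ioc (0 : ℝ) 1 then liftE X id (fun _ => 1) (S δ) (hS δ hδ) else 0,
    fun σ => ?_, fun δ hδ => ?_⟩
  · simp only [dif_pos (show (1 : ℝ) ∈ Ioc (0 : ℝ) 1 from ⟨one_pos, le_rfl⟩)]
    refine ⟨fun s p => funext fun x => ?_, liftE_empty σ 0, fun s x hx y hy e => ?_⟩
    · rcases s.eq_empty_or_nonempty with rfl | hs
      · rw [liftE_empty]
      by_cases hx : x ∈ X.Vs s
      swap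
      · exact Sec.zero _ _ hx
      obtain ⟨o, -, h1, -⟩ := hO _ (gd_rel hs hx)
      rw [liftE_v, one_smul, raw_eq hs hx, h1]
      exact up_congr (θ' := 0) (o.S_one_succ p _ _ (mem_pc hs hx))
    · rcases s.eq_empty_or_nonempty with rfl | hs
      · rw [liftE_empty]; rfl
      obtain ⟨o, -, h1, -⟩ := hO _ (gd_rel hs hx)
      have e1 := e _ (s.min'_mem hs)
      have e2 : pc X s (s.min' hs) (rel X (s.min' hs) y) =
          pc X s (s.min' hs) (rel X (s.min' hs) x) :=
        pc_congr fun b hb => by rw [rel, rel, e1, e b hb]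
      have hy' := mem_pc hs hy
      rw [e2] at hy'
      rw [liftE_v, one_smul, raw_eq hs hx, raw_eq hs hy, up_apply_zero, up_apply_zero, e2, h1,
        o.S_one_zero _ _ (mem_pc hs hx) _ hy', e1]
  simp only [dif_pos hδ]
  refine ⟨LinearMap.ext fun σ => Sec.ext fun s p x hx => ?_, e0_liftE, e0_liftE, eqv_liftE,
    eqv_liftE, fun σ s hs p => ⟨fun h0 => ?_, ?_, fun x hx => ?_⟩⟩
  · simp only [LinearMap.add_apply, LinearMap.sub_apply, Module.End.mul_apply, Module.End.one_apply,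
      Sec.add_val, Sec.sub_val, e0_apply]
    rcases s.eq_empty_or_nonempty with rfl | hs
    · rw [liftE_empty, liftE_empty, if_pos rfl]
      cases p with
      | zero => rw [dd_zero]; simp
      | succ p => rw [dd_succ _ _ hx, liftE_empty, extD_zero]; simp
    obtain ⟨o, h1, h2, -⟩ := hO _ (gd_rel hs hx)
    have hU := idx_spec (hx _ (s.min'_mem hs))
    have hz := mem_pc hs hx
    have hsm : ∀ p, ∀ y ∈ X.Vs s, SmoothAt (σ.v s p) y := fun p _ hy => σ.smooth p hy
    have hd : ∀ p, (liftE X (· + 1) (fun s => (-1) ^ s.card) (K δ) (hK δ hδ) (X.dd σ)).v s p x =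
        up X (s.min' hs) (X.idx (s.min' hs) x)
          (o.K δ p (extDeriv (down X (s.min' hs) (X.idx (s.min' hs) x) (σ.v s p)))) x := fun p => by
      rw [liftE_v, Pi.smul_apply, raw_eq hs hx, h1,
        up_congr ((o.K_congr δ p _ _ (down_congr fun y hy => dd_succ σ p hy) hz).trans
          (o.K_smul δ p ((-1) ^ s.card) (down X _ _ (extD (σ.v s p))) hz))]
      exact (sign_sq _ _).trans (up_congr (o.K_congr δ p _ _ (down_extD (hsm p)) hz))
    rw [if_neg hs.ne_empty, hd, liftE_v (d := id), one_smul, raw_eq hs hx, h2]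
    refine Eq.trans ?_ ((up_down hU).trans (sub_zero _).symm)
    cases p with
    | zero =>
      rw [dd_zero, Pi.zero_apply, zero_add]
      exact up_congr (θ := _ + _)
        (eq_sub_iff_add_eq.1 (o.homotopy_zero δ hδ _ (down_smooth (hsm 0)) _ hz))
    | succ p =>
      rw [dd_succ _ _ hx, liftE_v, extD_smul (raw_smooth (hK δ hδ p) hx (hsm _)), sign_sq,
        extD_congr (raw_eventually hs hx), up_extD hU (smooth_at_pc (hK δ hδ p) hs hx (hsm _)), h1]
      exact up_congr (θ := _ + _ + _)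
        (eq_sub_iff_add_eq.1 (o.homotopy_succ δ hδ p _ (down_smooth (hsm _)) _ hz))
  · rw [liftE_v]
    change _ • raw X _ s (σ.v s (p + 1)) = 0
    rw [h0, raw_zero (hK δ hδ p), fun_smul_zero]
  · have hsm : ∀ y ∈ X.Vs s, SmoothAt (σ.v s (p + 1)) y := fun _ hy => σ.smooth _ hy
    set I := ∫⁻ x in X.U (s.min' hs), ENNReal.ofReal (nsq X.g x (σ.v s (p + 1) x)) ∂X.μ
    refine (lint_cover (s := s) fun y hy => by rw [Sec.zero _ _ hy]; simp).trans ?_
    rw [ENNReal.ofReal_mul' (sq_nonneg _), ENNReal.ofReal_toReal hfin]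
    calc _ ≤ ∑ h ∈ Fintype.piFinset fun _ : Fin X.m => X.S, A * B * B * A *
          ENNReal.ofReal (δ ^ 2) * I * ENNReal.ofReal (C (pc X s (s.min' hs) h)) := by
          refine Finset.sum_le_sum fun h _ => ?_
          rcases (piece X s (s.min' hs) h).eq_empty_or_nonempty with he | ⟨y, hy⟩
          · simp [he]
          have hP := gd_pc (s.min'_mem hs) hy
          obtain ⟨o, h1, -, h3⟩ := hO _ hP
          rw [setLIntegral_congr_fun isOpen_piece.measurableSet (g := fun y => ENNReal.ofReal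
            (nsq X.g y (pull (ch X (s.min' hs)) (o.K δ p (down X (s.min' hs) 1 (σ.v s (p + 1)))) y)))
            fun y hy => by
              rw [liftE_v, Pi.smul_apply, nsq_smul, raw_piece hs hy, h1]; simp]
          refine (lint_up hP.1 (o.K_smooth δ hδ p _ (down_smooth hsm))).trans ?_
          calc _ ≤ A * (B * (ENNReal.ofReal (o.C * δ ^ 2) * (B * (A * I)))) := by
                gcongr
                exact (o.K_bound δ hδ p _ (down_smooth hsm)).trans
                  (mul_le_mul_right (lint_down hP.1 hsm) _)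
            _ = _ := by rw [ENNReal.ofReal_mul' (sq_nonneg _), h3]; ring
      _ ≤ A * B * B * A * ENNReal.ofReal (δ ^ 2) * I * Ct := by
          rw [← Finset.mul_sum]
          exact mul_le_mul_right (hCt1 _ _) _
      _ = A * B * B * A * Ct * ENNReal.ofReal (δ ^ 2) * I := by ring
      _ ≤ _ := by rw [hCf]; gcongr; exact le_self_add
  · by_cases hx' : x ∈ X.Vs s
    swap
    · rw [Sec.zero _ _ hx']; simp
    have hsm : ∀ y ∈ X.Vs s, SmoothAt (σ.v s p) y := fun _ hy => σ.smooth _ hy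
    set I := ∫⁻ x in X.U (s.min' hs), ENNReal.ofReal (nsq X.g x (σ.v s p x)) ∂X.μ
    obtain ⟨h, hh, hy⟩ := exists_piece hx hx'
    have hP := gd_pc (s.min'_mem hs) hy
    obtain ⟨o, -, h2, h3⟩ := hO _ hP
    have hc : ENNReal.ofReal o.C ≤ Ct := by
      rw [← h3]
      exact (Finset.single_le_sum (f := fun h => ENNReal.ofReal (C (pc X s (s.min' hs) h)))
        (fun _ _ => zero_le) hh).trans (hCt1 _ _)
    have hδn : 0 ≤ (δ ^ n)⁻¹ := inv_nonneg.2 (pow_nonneg hδ.1.le _)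
    rw [liftE_v, one_smul, raw_piece hs hy, h2, div_eq_mul_inv, ENNReal.ofReal_mul' hδn,
      ENNReal.ofReal_toReal hfin]
    calc _ ≤ A * (ENNReal.ofReal (o.C / δ ^ n) * (B * (A * I))) :=
          (nsq_pull_le hx).trans (mul_le_mul_right
            ((o.S_bound δ hδ p _ (down_smooth hsm) _ (mem_image_of_mem _ hy)).trans
              (mul_le_mul_right (lint_down hP.1 hsm) _)) _)
      _ = A * B * A * ENNReal.ofReal o.C * ENNReal.ofReal (δ ^ n)⁻¹ * I := by
          rw [div_eq_mul_inv, ENNReal.ofReal_mul' hδn]; ring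
      _ ≤ _ := by rw [hCf]; gcongr; exact le_add_self

end Pool.Agent.MP_d9582c_gt.H88
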